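import Mathlib

/-!
# MP_bda3cd_nt: the answer is no, `n = 8`

For `m ∈ K_8` let `w` be the number of the odd prime factors of `m` (with multiplicity) and
`u = v_2(m) + 2 v_5(m) + 3 v_7(m)`. The coloring is `A u` for even `w` and `B u` for odd `w`, where
`A = 1, 2, (4, 8, 3, 6)^ω` and `B = 3, 6, (7, 5, 1, 2)^ω`, except that the colors of `5 * 2^k` and
`7 * 2^k` are interchanged. If `c'` extends it, then the colors of `3/2, 9/2, 15/2` are pairwise
different, the tiles of `1/2, 3/2, 9/2` leave only the colors `5, 8` for `3/2` and for `9/2`, and those of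
`3/2, 5/2` leave only the color `8` for `15/2`.
-/

set_option autoImplicit false

namespace Pool.Agent.Results.MP_bda3cd_nt.NotExtendable

/-- `K_n`: the positive integers all of whose prime factors are `≤ n` -/
def K (n : ℕ) : Set ℕ := {m | 0 < m ∧ ∀ p : ℕ, p.Prime → p ∣ m → p ≤ n}

/-- `K̂_n`: the quotients `a / b` with `a, b ∈ K_n` -/
def KHat (n : ℕ) : Set ℚ := {x | ∃ a ∈ K n, ∃ b ∈ K n, x = (a : ℚ) / b}

/-- `c` (only its values on `K_n` matter) is an `n`-satisfactory coloring of `K_n`. -/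
def Satisfactory (n : ℕ) (c : ℕ → ℕ) : Prop :=
  (∀ x ∈ K n, 1 ≤ c x ∧ c x ≤ n) ∧ (∀ i, 1 ≤ i → i ≤ n → c i = i) ∧
  ∀ x ∈ K n, ∀ i j, 1 ≤ i → i < j → j ≤ n → c (i * x) ≠ c (j * x)

/-- `c` (only its values on `K̂_n` matter) is an `n`-satisfactory coloring of `K̂_n`. -/
def SatisfactoryHat (n : ℕ) (c : ℚ → ℕ) : Prop :=
  (∀ x ∈ KHat n, 1 ≤ c x ∧ c x ≤ n) ∧ (∀ i : ℕ, 1 ≤ i → i ≤ n → c (i : ℚ) = i) ∧
  ∀ x ∈ KHat n, ∀ i j : ℕ, 1 ≤ i → i < j → j ≤ n → c ((i : ℚ) * x) ≠ c ((j : ℚ) * x)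

/-- the colors of the powers of two -/
def A (u : ℕ) : ℕ :=
  if u = 0 then 1 else if u = 1 then 2 else if u % 4 = 2 then 4 else if u % 4 = 3 then 8 else
    if u % 4 = 0 then 3 else 6

/-- the colors of the numbers `3 * 2^k` -/
def B (u : ℕ) : ℕ :=
  if u = 0 then 3 else if u = 1 then 6 else if u % 4 = 2 then 7 else if u % 4 = 3 then 5 else
    if u % 4 = 0 then 1 else 2

/-- the color of `2^a * 3^b * 5^d * 7^e` -/
def col (a b d e : ℕ) : ℕ :=
  if b + d + e = 1 then (if b = 1 then B a else if d = 1 then B (a + 3) else B (a + 2))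
  else if (b + d + e) % 2 = 0 then A (a + 2 * d + 3 * e) else B (a + 2 * d + 3 * e)

theorem A_ne (u k : ℕ) (h1 : 1 ≤ k) (h2 : k ≤ 3) : A u ≠ A (u + k) := by
  unfold A; split_ifs <;> omega

theorem B_ne (u k : ℕ) (h1 : 1 ≤ k) (h2 : k ≤ 3) : B u ≠ B (u + k) := by
  unfold B; split_ifs <;> omega

theorem AB_ne (u v : ℕ) (h1 : u ≤ v + 3) (h2 : v ≤ u + 3) : A u ≠ B v := by
  unfold A B; split_ifs <;> omega

theorem AB_ne' (u v : ℕ) (h1 : 2 ≤ u) (h2 : 2 ≤ v) : A u ≠ B v := by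
  unfold A B; split_ifs <;> omega

theorem col_range (a b d e : ℕ) : 1 ≤ col a b d e ∧ col a b d e ≤ 8 := by
  unfold col A B; split_ifs <;> omega

/-- exponents of `i ≤ 8` -/
def E (i : ℕ) : ℕ × ℕ × ℕ × ℕ :=
  match i with
  | 2 => (1, 0, 0, 0) | 3 => (0, 1, 0, 0) | 4 => (2, 0, 0, 0) | 5 => (0, 0, 1, 0)
  | 6 => (1, 1, 0, 0) | 7 => (0, 0, 0, 1) | 8 => (3, 0, 0, 0) | _ => (0, 0, 0, 0)

theorem eq_or (u v : ℕ) (h : u ≠ v) (h1 : u ≤ v + 3) (h2 : v ≤ u + 3) : A u ≠ A v ∧ B u ≠ B v := by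
  rcases Nat.lt_or_ge u v with h3 | h3
  · obtain ⟨k, rfl⟩ : ∃ k, v = u + k := ⟨v - u, by omega⟩
    exact ⟨A_ne _ _ (by omega) (by omega), B_ne _ _ (by omega) (by omega)⟩
  · obtain ⟨k, rfl⟩ : ∃ k, u = v + k := ⟨u - v, by omega⟩
    exact ⟨(A_ne _ _ (by omega) (by omega)).symm, (B_ne _ _ (by omega) (by omega)).symm⟩

theorem col_ne (a b d e i j : ℕ) (h1 : 1 ≤ i) (h2 : i < j) (h3 : j ≤ 8) :
    col (a + (E i).1) (b + (E i).2.1) (d + (E i).2.2.1) (e + (E i).2.2.2) ≠
    col (a + (E j).1) (b + (E j).2.1) (d + (E j).2.2.1) (e + (E j).2.2.2) := by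
  have hi : i ≤ 7 := by omega
  unfold col
  interval_cases i <;> interval_cases j <;> simp only [E] <;> split_ifs <;>
    first
    | (exfalso; omega)
    | exact (eq_or _ _ (by omega) (by omega) (by omega)).1
    | exact (eq_or _ _ (by omega) (by omega) (by omega)).2
    | exact AB_ne _ _ (by omega) (by omega)
    | exact (AB_ne _ _ (by omega) (by omega)).symm
    | exact AB_ne' _ _ (by omega) (by omega)
    | exact (AB_ne' _ _ (by omega) (by omega)).symm

instance : Fact (Nat.Prime 5) := ⟨by norm_num⟩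
instance : Fact (Nat.Prime 7) := ⟨by norm_num⟩

/-- `x` has the exponents `a, b, d, e` at the primes `2, 3, 5, 7` -/
def Vec (x a b d e : ℕ) : Prop := x ≠ 0 ∧ padicValNat 2 x = a ∧ padicValNat 3 x = b ∧
  padicValNat 5 x = d ∧ padicValNat 7 x = e

theorem Vec.mul {x y a b d e a' b' d' e' : ℕ} (h : Vec x a b d e) (h' : Vec y a' b' d' e') :
    Vec (x * y) (a + a') (b + b') (d + d') (e + e') := by
  obtain ⟨h0, h1, h2, h3, h4⟩ := h
  obtain ⟨h0', h1', h2', h3', h4'⟩ := h'
  refine ⟨mul_ne_zero h0 h0', ?_, ?_, ?_, ?_⟩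
  · rw [padicValNat.mul h0 h0', h1, h1']
  · rw [padicValNat.mul h0 h0', h2, h2']
  · rw [padicValNat.mul h0 h0', h3, h3']
  · rw [padicValNat.mul h0 h0', h4, h4']

theorem vec1 : Vec 1 0 0 0 0 := by
  refine ⟨by norm_num, ?_, ?_, ?_, ?_⟩ <;> simp

theorem vec2 : Vec 2 1 0 0 0 :=
  ⟨by norm_num, padicValNat.self (by norm_num), padicValNat_primes (by norm_num),
    padicValNat_primes (by norm_num), padicValNat_primes (by norm_num)⟩

theorem vec3 : Vec 3 0 1 0 0 :=
  ⟨by norm_num, padicValNat_primes (by norm_num), padicValNat.self (by norm_num),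
    padicValNat_primes (by norm_num), padicValNat_primes (by norm_num)⟩

theorem vec5 : Vec 5 0 0 1 0 :=
  ⟨by norm_num, padicValNat_primes (by norm_num), padicValNat_primes (by norm_num),
    padicValNat.self (by norm_num), padicValNat_primes (by norm_num)⟩

theorem vec7 : Vec 7 0 0 0 1 :=
  ⟨by norm_num, padicValNat_primes (by norm_num), padicValNat_primes (by norm_num),
    padicValNat_primes (by norm_num), padicValNat.self (by norm_num)⟩

theorem vecE (i : ℕ) (h1 : 1 ≤ i) (h2 : i ≤ 8) : Vec i (E i).1 (E i).2.1 (E i).2.2.1 (E i).2.2.2 := by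
  interval_cases i
  · exact vec1
  · exact vec2
  · exact vec3
  · exact vec2.mul vec2
  · exact vec5
  · exact vec2.mul vec3
  · exact vec7
  · exact (vec2.mul vec2).mul vec2

/-- the coloring -/
def c (m : ℕ) : ℕ := col (padicValNat 2 m) (padicValNat 3 m) (padicValNat 5 m) (padicValNat 7 m)

theorem c_eq {x a b d e : ℕ} (h : Vec x a b d e) : c x = col a b d e := by
  obtain ⟨_, h1, h2, h3, h4⟩ := h
  unfold c
  rw [h1, h2, h3, h4]

theorem c_mul (i x : ℕ) (h1 : 1 ≤ i) (h2 : i ≤ 8) (hx : x ≠ 0) : c (i * x) =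
    col (padicValNat 2 x + (E i).1) (padicValNat 3 x + (E i).2.1) (padicValNat 5 x + (E i).2.2.1)
      (padicValNat 7 x + (E i).2.2.2) := by
  have hv : Vec x (padicValNat 2 x) (padicValNat 3 x) (padicValNat 5 x) (padicValNat 7 x) :=
    ⟨hx, rfl, rfl, rfl, rfl⟩
  rw [mul_comm]
  exact c_eq (hv.mul (vecE i h1 h2))

theorem c_sat : Satisfactory 8 c := by
  refine ⟨fun x _ => col_range _ _ _ _, ?_, ?_⟩
  · intro i h1 h2
    rw [c_eq (vecE i h1 h2)]
    interval_cases i <;> rfl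
  · intro x hx i j h1 h2 h3
    have hx0 : x ≠ 0 := by have := hx.1; omega
    rw [c_mul i x h1 (by omega) hx0, c_mul j x (by omega) h3 hx0]
    exact col_ne _ _ _ _ i j h1 h2 h3

theorem mem_small (n i : ℕ) (h1 : 1 ≤ i) (h2 : i ≤ n) : i ∈ K n :=
  ⟨h1, fun _ _ hp => (Nat.le_of_dvd h1 hp).trans h2⟩

theorem mem_mul {n x y : ℕ} (hx : x ∈ K n) (hy : y ∈ K n) : x * y ∈ K n :=
  ⟨Nat.mul_pos hx.1 hy.1, fun p hp h => ((Nat.Prime.dvd_mul hp).mp h).elim (hx.2 p hp) (hy.2 p hp)⟩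

/-- Some `8`-satisfactory coloring of `K_8` has no extension to an `8`-satisfactory coloring of
`K̂_8`. -/
theorem result : ∃ n : ℕ, ∃ c : ℕ → ℕ, Satisfactory n c ∧
    ¬ ∃ c' : ℚ → ℕ, SatisfactoryHat n c' ∧ ∀ x ∈ K n, c' (x : ℚ) = c x := by
  refine ⟨8, c, c_sat, ?_⟩
  rintro ⟨c', ⟨hr, -, hd⟩, he⟩
  have m1 : ∀ i, 1 ≤ i → i ≤ 8 → i ∈ K 8 := mem_small 8
  -- half of an element of `K_8`
  have hh : ∀ m ∈ K 8, ((m : ℚ) / 2) ∈ KHat 8 := fun m hm =>
    ⟨m, hm, 2, m1 2 (by norm_num) (by norm_num), by norm_num⟩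
  have k9 : 9 ∈ K 8 := mem_mul (x := 3) (y := 3) (m1 3 (by norm_num) (by norm_num)) (m1 3 (by norm_num) (by norm_num))
  have k15 : 15 ∈ K 8 := mem_mul (x := 3) (y := 5) (m1 3 (by norm_num) (by norm_num)) (m1 5 (by norm_num) (by norm_num))
  have k10 : 10 ∈ K 8 := mem_mul (x := 2) (y := 5) (m1 2 (by norm_num) (by norm_num)) (m1 5 (by norm_num) (by norm_num))
  have k12 : 12 ∈ K 8 := mem_mul (x := 3) (y := 4) (m1 3 (by norm_num) (by norm_num)) (m1 4 (by norm_num) (by norm_num))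
  have k18 : 18 ∈ K 8 := mem_mul (x := 3) (y := 6) (m1 3 (by norm_num) (by norm_num)) (m1 6 (by norm_num) (by norm_num))
  have k20 : 20 ∈ K 8 := mem_mul (x := 4) (y := 5) (m1 4 (by norm_num) (by norm_num)) (m1 5 (by norm_num) (by norm_num))
  have k27 : 27 ∈ K 8 := mem_mul (x := 9) (y := 3) k9 (m1 3 (by norm_num) (by norm_num))
  have k36 : 36 ∈ K 8 := mem_mul (x := 9) (y := 4) k9 (m1 4 (by norm_num) (by norm_num))
  -- the colors of some elements
  have v1 : c' 1 = 1 := by have := he 1 (m1 1 (by norm_num) (by norm_num)); rw [c_eq vec1] at this; exact_mod_cast this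
  have v2 : c' 2 = 2 := by have := he 2 (m1 2 (by norm_num) (by norm_num)); rw [c_eq vec2] at this; exact_mod_cast this
  have v3 : c' 3 = 3 := by have := he 3 (m1 3 (by norm_num) (by norm_num)); rw [c_eq vec3] at this; exact_mod_cast this
  have v4 : c' 4 = 4 := by have := he 4 (m1 4 (by norm_num) (by norm_num)); rw [c_eq (vec2.mul vec2)] at this; exact_mod_cast this
  have v5 : c' 5 = 5 := by have := he 5 (m1 5 (by norm_num) (by norm_num)); rw [c_eq vec5] at this; exact_mod_cast this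
  have v6 : c' 6 = 6 := by have := he 6 (m1 6 (by norm_num) (by norm_num)); rw [c_eq (vec2.mul vec3)] at this; exact_mod_cast this
  have v9 : c' 9 = 1 := by have := he 9 k9; rw [c_eq (vec3.mul vec3)] at this; exact_mod_cast this
  have v10 : c' 10 = 1 := by have := he 10 k10; rw [c_eq (vec2.mul vec5)] at this; exact_mod_cast this
  have v12 : c' 12 = 7 := by have := he 12 k12; rw [c_eq (vec3.mul (vec2.mul vec2))] at this; exact_mod_cast this
  have v15 : c' 15 = 4 := by have := he 15 k15; rw [c_eq (vec3.mul vec5)] at this; exact_mod_cast this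
  have v18 : c' 18 = 2 := by have := he 18 k18; rw [c_eq (vec3.mul (vec2.mul vec3))] at this; exact_mod_cast this
  have v20 : c' 20 = 2 := by have := he 20 k20; rw [c_eq ((vec2.mul vec2).mul vec5)] at this; exact_mod_cast this
  have v27 : c' 27 = 3 := by have := he 27 k27; rw [c_eq ((vec3.mul vec3).mul vec3)] at this; exact_mod_cast this
  have v36 : c' 36 = 4 := by
    have := he 36 k36; rw [c_eq ((vec3.mul vec3).mul (vec2.mul vec2))] at this; exact_mod_cast this
  -- the tiles of `1/2`, `3/2`, `5/2`, `9/2`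
  have t1 := hd _ (hh 1 (m1 1 (by norm_num) (by norm_num)))
  have t3 := hd _ (hh 3 (m1 3 (by norm_num) (by norm_num)))
  have t5 := hd _ (hh 5 (m1 5 (by norm_num) (by norm_num)))
  have t9 := hd _ (hh 9 k9)
  have r3 := hr _ (hh 3 (m1 3 (by norm_num) (by norm_num)))
  have r9 := hr _ (hh 9 k9)
  have r15 := hr _ (hh 15 k15)
  have a1 := t1 2 3 (by norm_num) (by norm_num) (by norm_num)
  have a2 := t1 3 4 (by norm_num) (by norm_num) (by norm_num)
  have a3 := t1 3 6 (by norm_num) (by norm_num) (by norm_num)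
  have a4 := t1 3 8 (by norm_num) (by norm_num) (by norm_num)
  have b1 := t3 1 2 (by norm_num) (by norm_num) (by norm_num)
  have b2 := t3 1 4 (by norm_num) (by norm_num) (by norm_num)
  have b3 := t3 1 6 (by norm_num) (by norm_num) (by norm_num)
  have b4 := t3 1 8 (by norm_num) (by norm_num) (by norm_num)
  have b5 := t3 1 3 (by norm_num) (by norm_num) (by norm_num)
  have b6 := t3 1 5 (by norm_num) (by norm_num) (by norm_num)
  have b7 := t3 3 5 (by norm_num) (by norm_num) (by norm_num)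
  have b8 := t3 2 3 (by norm_num) (by norm_num) (by norm_num)
  have b9 := t3 3 4 (by norm_num) (by norm_num) (by norm_num)
  have b10 := t3 3 6 (by norm_num) (by norm_num) (by norm_num)
  have b11 := t3 3 8 (by norm_num) (by norm_num) (by norm_num)
  have b12 := t3 2 5 (by norm_num) (by norm_num) (by norm_num)
  have b13 := t3 4 5 (by norm_num) (by norm_num) (by norm_num)
  have b14 := t3 5 6 (by norm_num) (by norm_num) (by norm_num)
  have b15 := t3 5 8 (by norm_num) (by norm_num) (by norm_num)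
  have d1 := t5 2 3 (by norm_num) (by norm_num) (by norm_num)
  have d2 := t5 3 4 (by norm_num) (by norm_num) (by norm_num)
  have d3 := t5 3 6 (by norm_num) (by norm_num) (by norm_num)
  have d4 := t5 3 8 (by norm_num) (by norm_num) (by norm_num)
  have f1 := t9 1 2 (by norm_num) (by norm_num) (by norm_num)
  have f2 := t9 1 4 (by norm_num) (by norm_num) (by norm_num)
  have f3 := t9 1 6 (by norm_num) (by norm_num) (by norm_num)
  have f4 := t9 1 8 (by norm_num) (by norm_num) (by norm_num)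
  norm_num at r3 r9 r15 a1 a2 a3 a4 b1 b2 b3 b4 b5 b6 b7 b8 b9 b10 b11 b12 b13 b14 b15 d1 d2 d3 d4 f1 f2 f3 f4
  omega

end Pool.Agent.Results.MP_bda3cd_nt.NotExtendable
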